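import Pool.Agent.Y667.RP.Stm
import Pool.Agent.W762.RK2.EXP4a
import Pool.Agent.W215.FK.MAF
import Pool.Agent.W756.FK.Combf
import Pool.Agent.W864.FK.ExpF
import Pool.Agent.Helper923.HMertens

/-!
# Project RP, part MS1: the measure of the base data
-/

set_option autoImplicit false

namespace Pool.Agent.Y535.RP

open Finset Pool.Agent.W262.RK Pool.Agent.W762.RK2 Pool.Agent.W307.FK Pool.Agent.Y667.RP

section basic

variable {z y : ℕ}

/-- the product of `1 + 3 / p` over the primes of `(z, y]` -/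
noncomputable def SP (z y : ℕ) : ℝ := ∏ p ∈ PS z y, (1 + 3 / (p : ℝ))

theorem Pr_pos (p : Pr z y) : (0 : ℝ) < (p : ℕ) := by exact_mod_cast (Pr_prime p).pos

theorem sum_lab (h : Pr z y → Option (Fin 3) → ℝ) :
    ∑ l : Pr z y → Option (Fin 3), ∏ p, h p (l p) = ∏ p, ∑ o, h p o := by
  rw [Finset.prod_univ_sum, Fintype.piFinset_univ]

theorem inv_Dl (l : Pr z y → Option (Fin 3)) :
    ∏ j, 1 / (Dl l j : ℝ) = ∏ p : Pr z y, if (l p).isSome = true then 1 / ((p : ℕ) : ℝ) else 1 := by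
  have h1 : ∏ j, 1 / (Dl l j : ℝ) = (((∏ j, Dl l j : ℕ)) : ℝ)⁻¹ := by
    push_cast
    rw [← Finset.prod_inv_distrib]
    exact Finset.prod_congr rfl fun j _ => one_div _
  rw [h1, prod_Dl]
  unfold nb
  push_cast
  rw [← Finset.prod_inv_distrib]
  refine Finset.prod_congr rfl fun p _ => ?_
  split_ifs
  · rw [one_div]
  · simp

theorem SP_eq (z y : ℕ) : ∑ s ∈ Tup (Fin 3) z y, ∏ j, 1 / (s j : ℝ) = SP z y := by
  rw [sum_Tup]
  simp only [inv_Dl]
  rw [sum_lab (fun p o => if o.isSome = true then 1 / ((p : ℕ) : ℝ) else 1)]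
  unfold SP
  rw [← Finset.prod_coe_sort (PS z y)]
  refine Finset.prod_congr rfl fun p _ => ?_
  rw [Fintype.sum_option]
  simp
  ring

theorem SP_pos (z y : ℕ) : 0 < SP z y := by
  unfold SP
  refine Finset.prod_pos fun p hp => ?_
  have : (0 : ℝ) ≤ 3 / (p : ℝ) := by positivity
  linarith

end basic

section mertens

theorem SP_upper {z y : ℕ} {C : ℝ} (hz : 2 ≤ z) (hzy : z ≤ y)
    (hC : |∑ p ∈ (Finset.Ioc z y).filter Nat.Prime, (1 : ℝ) / p
      - Real.log (Real.log y / Real.log z)| ≤ C / Real.log z) :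
    SP z y ≤ Real.exp (3 * (C / Real.log z)) / Real.log z ^ 3 * Real.log y ^ 3 := by
  have hlz : 0 < Real.log z := Real.log_pos (by exact_mod_cast (by omega : 1 < z))
  have hly : 0 < Real.log y := Real.log_pos (by exact_mod_cast (by omega : 1 < y))
  have h1 : SP z y ≤ Real.exp (3 * ∑ p ∈ (Finset.Ioc z y).filter Nat.Prime, (1 : ℝ) / p) := by
    rw [Finset.mul_sum, Real.exp_sum]
    unfold SP PS
    refine Finset.prod_le_prod (fun p _ => by positivity) fun p _ => ?_
    have := Real.add_one_le_exp (3 * (1 / (p : ℝ)))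
    calc (1 : ℝ) + 3 / p = 3 * (1 / (p : ℝ)) + 1 := by ring
      _ ≤ _ := this
  refine h1.trans ?_
  have h2 := (abs_le.1 hC).2
  have h3 : Real.exp (3 * ∑ p ∈ (Finset.Ioc z y).filter Nat.Prime, (1 : ℝ) / p) ≤
      Real.exp (3 * (C / Real.log z) + 3 * Real.log (Real.log y / Real.log z)) :=
    Real.exp_le_exp.2 (by linarith)
  refine h3.trans (le_of_eq ?_)
  rw [Real.exp_add]
  have h4 : Real.exp (3 * Real.log (Real.log y / Real.log z)) = (Real.log y / Real.log z) ^ 3 := by
    rw [show (3 : ℝ) * Real.log (Real.log y / Real.log z) =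
      ((3 : ℕ) : ℝ) * Real.log (Real.log y / Real.log z) by norm_num, Real.exp_nat_mul,
      Real.exp_log (by positivity)]
  rw [h4]
  field_simp

theorem one_add_ge {x : ℝ} (hx : 0 ≤ x) : Real.exp (x - x ^ 2) ≤ 1 + x := by
  have h1 : (0 : ℝ) < 1 + x := by linarith
  rw [← Real.le_log_iff_exp_le h1]
  have h2 := Real.one_sub_inv_le_log_of_pos h1
  refine le_trans ?_ h2
  have h3 : 1 - (1 + x)⁻¹ = x / (1 + x) := by
    field_simp
    ring
  rw [h3, le_div_iff₀ h1]
  nlinarith [pow_nonneg hx 3]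

theorem SP_lower {z y : ℕ} {C : ℝ} (hz : 2 ≤ z) (hzy : z ≤ y)
    (hC : |∑ p ∈ (Finset.Ioc z y).filter Nat.Prime, (1 : ℝ) / p
      - Real.log (Real.log y / Real.log z)| ≤ C / Real.log z) :
    Real.exp (-(3 * (C / Real.log z)) - 9) / Real.log z ^ 3 * Real.log y ^ 3 ≤ SP z y := by
  have hlz : 0 < Real.log z := Real.log_pos (by exact_mod_cast (by omega : 1 < z))
  have hly : 0 < Real.log y := Real.log_pos (by exact_mod_cast (by omega : 1 < y))
  have h5 : ∑ p ∈ (Finset.Ioc z y).filter Nat.Prime, ((p : ℝ) ^ 2)⁻¹ ≤ 1 := by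
    calc ∑ p ∈ (Finset.Ioc z y).filter Nat.Prime, ((p : ℝ) ^ 2)⁻¹
        ≤ ∑ p ∈ Finset.Ioc z y, ((p : ℝ) ^ 2)⁻¹ :=
          Finset.sum_le_sum_of_subset_of_nonneg (Finset.filter_subset _ _)
            (fun _ _ _ => by positivity)
      _ ≤ (z : ℝ)⁻¹ - (y : ℝ)⁻¹ := sum_Ioc_inv_sq_le_sub (by omega) hzy
      _ ≤ 1 := by
          have h6 : (z : ℝ)⁻¹ ≤ 1 := inv_le_one_of_one_le₀ (by exact_mod_cast (by omega : 1 ≤ z))
          have h7 : (0 : ℝ) ≤ (y : ℝ)⁻¹ := by positivity
          linarith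
  have h1 : Real.exp (3 * (∑ p ∈ (Finset.Ioc z y).filter Nat.Prime, (1 : ℝ) / p) -
      9 * ∑ p ∈ (Finset.Ioc z y).filter Nat.Prime, ((p : ℝ) ^ 2)⁻¹) ≤ SP z y := by
    rw [Finset.mul_sum, Finset.mul_sum, ← Finset.sum_sub_distrib, Real.exp_sum]
    unfold SP PS
    refine Finset.prod_le_prod (fun p _ => (Real.exp_pos _).le) fun p hp => ?_
    have hp0 : (0 : ℝ) < p := by exact_mod_cast (Finset.mem_filter.1 hp).2.pos
    have := one_add_ge (x := 3 / (p : ℝ)) (by positivity)
    calc Real.exp (3 * (1 / (p : ℝ)) - 9 * ((p : ℝ) ^ 2)⁻¹) =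
          Real.exp (3 / (p : ℝ) - (3 / (p : ℝ)) ^ 2) := by
            congr 1
            field_simp
            ring
      _ ≤ _ := this
  refine le_trans ?_ h1
  have h2 := (abs_le.1 hC).1
  have h3 : Real.exp (-(3 * (C / Real.log z)) - 9 + 3 * Real.log (Real.log y / Real.log z)) ≤
      Real.exp (3 * (∑ p ∈ (Finset.Ioc z y).filter Nat.Prime, (1 : ℝ) / p) -
        9 * ∑ p ∈ (Finset.Ioc z y).filter Nat.Prime, ((p : ℝ) ^ 2)⁻¹) :=
    Real.exp_le_exp.2 (by linarith)
  refine le_trans (le_of_eq ?_) h3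
  rw [Real.exp_add]
  have h4 : Real.exp (3 * Real.log (Real.log y / Real.log z)) = (Real.log y / Real.log z) ^ 3 := by
    rw [show (3 : ℝ) * Real.log (Real.log y / Real.log z) =
      ((3 : ℕ) : ℝ) * Real.log (Real.log y / Real.log z) by norm_num, Real.exp_nat_mul,
      Real.exp_log (by positivity)]
  rw [h4]
  field_simp

end mertens

section rankin

variable {z y : ℕ}

theorem exp_le_two {t : ℝ} (h0 : 0 ≤ t) (h1 : t ≤ 1) : Real.exp t ≤ 1 + 2 * t := by
  have h := Real.abs_exp_sub_one_sub_id_le (x := t) (by rw [abs_of_nonneg h0]; exact h1)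
  have h2 := (abs_le.1 h).2
  nlinarith

theorem Dl_rpow (l : Pr z y → Option (Fin 3)) (j0 : Fin 3) (e : ℝ) :
    (Dl l j0 : ℝ) ^ e = ∏ p : Pr z y, if l p = some j0 then ((p : ℕ) : ℝ) ^ e else 1 := by
  have h1 : (Dl l j0 : ℝ) = ∏ p : Pr z y, if l p = some j0 then ((p : ℕ) : ℝ) else 1 := by
    unfold Dl nb
    push_cast
    refine Finset.prod_congr rfl fun p _ => ?_
    simp only [decide_eq_true_eq]
  rw [h1, ← Real.finsetProd_rpow]
  · refine Finset.prod_congr rfl fun p _ => ?_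
    split_ifs
    · rfl
    · exact Real.one_rpow e
  · intro p _
    split_ifs
    · exact (Pr_pos p).le
    · norm_num

theorem rank_sum (j0 : Fin 3) (hy : 1 ≤ Real.log y) {C1 : ℝ}
    (hC : ∑ p ∈ PS z y, Real.log p / p ≤ Real.log y + C1) (hC1 : 0 ≤ C1) :
    ∑ s ∈ Tup (Fin 3) z y, (s j0 : ℝ) ^ (1 / Real.log y) * ∏ j, 1 / (s j : ℝ) ≤
      Real.exp (2 + 2 * C1) * SP z y := by
  have hly : 0 < Real.log y := by linarith
  rw [sum_Tup]
  simp only [inv_Dl, Dl_rpow, ← Finset.prod_mul_distrib]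
  rw [sum_lab (fun p o => (if o = some j0 then ((p : ℕ) : ℝ) ^ (1 / Real.log y) else 1) *
    (if o.isSome = true then 1 / ((p : ℕ) : ℝ) else 1))]
  have h1 : ∀ p : Pr z y, (∑ o : Option (Fin 3),
      (if o = some j0 then ((p : ℕ) : ℝ) ^ (1 / Real.log y) else 1) *
      (if o.isSome = true then 1 / ((p : ℕ) : ℝ) else 1)) =
      1 + (2 + ((p : ℕ) : ℝ) ^ (1 / Real.log y)) / ((p : ℕ) : ℝ) := by
    intro p
    rw [Fintype.sum_option]
    simp only [Fin.sum_univ_three, Option.isSome_none, Option.isSome_some, reduceCtorEq,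
      if_false, if_true, Option.some.injEq, Bool.false_eq_true, mul_one]
    fin_cases j0
    · simp
      ring
    · simp
      ring
    · simp
      ring
  have h2 : ∏ p : Pr z y, (∑ o : Option (Fin 3),
      (if o = some j0 then ((p : ℕ) : ℝ) ^ (1 / Real.log y) else 1) *
      (if o.isSome = true then 1 / ((p : ℕ) : ℝ) else 1)) ≤
      ∏ p : Pr z y, ((1 + 3 / ((p : ℕ) : ℝ)) *
        Real.exp (2 * (Real.log (p : ℕ) / (p : ℕ)) / Real.log y)) := by
    refine Finset.prod_le_prod (fun p _ => ?_) fun p _ => ?_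
    · rw [h1 p]
      have := Pr_pos p
      positivity
    · rw [h1 p]
      have hp := Pr_pos p
      have hp1 : (1 : ℝ) ≤ (p : ℕ) := by exact_mod_cast (Pr_prime p).one_le
      have hpy : ((p : ℕ) : ℝ) ≤ y := by
        have := p.2
        unfold PS at this
        exact_mod_cast (Finset.mem_Ioc.1 (Finset.mem_filter.1 this).1).2
      have hlp : 0 ≤ Real.log (p : ℕ) := Real.log_nonneg hp1
      have hlpy : Real.log (p : ℕ) ≤ Real.log y := Real.log_le_log hp hpy
      have h3 : ((p : ℕ) : ℝ) ^ (1 / Real.log y) ≤ 1 + 2 * (Real.log (p : ℕ) / Real.log y) := by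
        rw [Real.rpow_def_of_pos hp, mul_one_div]
        exact exp_le_two (by positivity) ((div_le_one hly).2 hlpy)
      set t : ℝ := 2 * (Real.log (p : ℕ) / (p : ℕ)) / Real.log y with ht
      have ht0 : 0 ≤ t := by positivity
      have h4 : (2 + ((p : ℕ) : ℝ) ^ (1 / Real.log y)) / ((p : ℕ) : ℝ) ≤
          3 / ((p : ℕ) : ℝ) + t := by
        rw [div_le_iff₀ hp]
        have : (3 / ((p : ℕ) : ℝ) + t) * (p : ℕ) =
            3 + 2 * (Real.log (p : ℕ) / Real.log y) := by
          rw [ht]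
          field_simp
        rw [this]
        linarith
      have h5 := Real.add_one_le_exp t
      have h6 : (0 : ℝ) ≤ 3 / ((p : ℕ) : ℝ) := by positivity
      calc 1 + (2 + ((p : ℕ) : ℝ) ^ (1 / Real.log y)) / ((p : ℕ) : ℝ) ≤
            (1 + 3 / ((p : ℕ) : ℝ)) * (t + 1) := by nlinarith
        _ ≤ _ := mul_le_mul_of_nonneg_left h5 (by positivity)
  refine h2.trans ?_
  rw [Finset.prod_mul_distrib, ← Real.exp_sum]
  have h7 : ∏ p : Pr z y, (1 + 3 / ((p : ℕ) : ℝ)) = SP z y := by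
    unfold SP
    exact Finset.prod_coe_sort (PS z y) (fun p => 1 + 3 / (p : ℝ))
  have h8 : ∑ p : Pr z y, 2 * (Real.log (p : ℕ) / (p : ℕ)) / Real.log y =
      2 * (∑ p ∈ PS z y, Real.log p / p) / Real.log y := by
    rw [Finset.mul_sum, Finset.sum_div]
    exact Finset.sum_coe_sort (PS z y) (fun p => 2 * (Real.log p / p) / Real.log y)
  rw [h7, h8, mul_comm]
  refine mul_le_mul_of_nonneg_right (Real.exp_le_exp.2 ?_) (SP_pos z y).le
  rw [div_le_iff₀ hly]
  nlinarith

theorem rank_mem (s : Fin 3 → ℕ) (hs : ∀ j, 0 < s j) (hy : 1 ≤ Real.log y) (hy0 : 0 < y) {u : ℝ}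
    (h : ∃ j, (y : ℝ) ^ u < s j) :
    ∏ j, 1 / (s j : ℝ) ≤ Real.exp (-u) *
      ∑ j0, (s j0 : ℝ) ^ (1 / Real.log y) * ∏ j, 1 / (s j : ℝ) := by
  obtain ⟨j, hj⟩ := h
  have hly : 0 < Real.log y := by linarith
  have hy0' : (0 : ℝ) < y := by exact_mod_cast hy0
  have hP : 0 < ∏ j, 1 / (s j : ℝ) := Finset.prod_pos fun j _ => by
    have := hs j
    positivity
  have h1 : Real.exp u ≤ (s j : ℝ) ^ (1 / Real.log y) := by
    have h2 : Real.exp u = ((y : ℝ) ^ u) ^ (1 / Real.log y) := by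
      rw [← Real.rpow_mul hy0'.le, Real.rpow_def_of_pos hy0']
      congr 1
      field_simp
    rw [h2]
    exact Real.rpow_le_rpow (by positivity) hj.le (by positivity)
  have h3 : (s j : ℝ) ^ (1 / Real.log y) * ∏ j, 1 / (s j : ℝ) ≤
      ∑ j0, (s j0 : ℝ) ^ (1 / Real.log y) * ∏ j, 1 / (s j : ℝ) :=
    Finset.single_le_sum (f := fun j0 => (s j0 : ℝ) ^ (1 / Real.log y) * ∏ j, 1 / (s j : ℝ))
      (fun i _ => by positivity) (Finset.mem_univ j)
  calc ∏ j, 1 / (s j : ℝ) = Real.exp (-u) * (Real.exp u * ∏ j, 1 / (s j : ℝ)) := by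
        rw [← mul_assoc, ← Real.exp_add]
        simp
    _ ≤ _ := by
        refine mul_le_mul_of_nonneg_left ?_ (Real.exp_pos _).le
        exact (mul_le_mul_of_nonneg_right h1 hP.le).trans h3

end rankin

section divisor

variable {z y : ℕ}

theorem div_sum {f : ℕ} (hf : f ∣ PP z y) :
    ∑ s ∈ (Tup (Fin 3) z y).filter (fun s => f ∣ ∏ j, s j), ∏ j, 1 / (s j : ℝ) ≤
      ((3 : ℝ) ^ f.primeFactors.card / f) * SP z y := by
  classical
  rw [Finset.sum_filter, sum_Tup]
  have h1 : ∀ l : Pr z y → Option (Fin 3),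
      (if f ∣ ∏ j, Dl l j then ∏ j, 1 / (Dl l j : ℝ) else 0) ≤
      ∏ p : Pr z y, if (l p).isSome = true then 1 / ((p : ℕ) : ℝ)
        else if (p : ℕ) ∣ f then 0 else 1 := by
    intro l
    split_ifs with h
    · rw [inv_Dl]
      refine le_of_eq (Finset.prod_congr rfl fun p _ => ?_)
      split_ifs with h2 h3
      · rfl
      · exfalso
        apply h2
        have h4 : (p : ℕ) ∣ nb fun p => (l p).isSome := by
          rw [← prod_Dl]
          exact h3.trans h
        exact (dvd_nb _ p).1 h4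
      · rfl
    · refine Finset.prod_nonneg fun p _ => ?_
      have := Pr_pos p
      split_ifs <;> positivity
  refine (Finset.sum_le_sum fun l _ => h1 l).trans ?_
  rw [sum_lab (fun p o => if o.isSome = true then 1 / ((p : ℕ) : ℝ)
        else if (p : ℕ) ∣ f then 0 else 1)]
  have h2 : ∀ p : Pr z y, (∑ o : Option (Fin 3), if o.isSome = true then 1 / ((p : ℕ) : ℝ)
        else if (p : ℕ) ∣ f then 0 else 1) ≤
      (if decide ((p : ℕ) ∣ f) = true then 3 / ((p : ℕ) : ℝ) else 1) *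
        (1 + 3 / ((p : ℕ) : ℝ)) := by
    intro p
    have hp := Pr_pos p
    have h3 : (0 : ℝ) ≤ 3 / ((p : ℕ) : ℝ) := by positivity
    rw [Fintype.sum_option]
    simp only [Fin.sum_univ_three, Option.isSome_none, Option.isSome_some, if_true,
      Bool.false_eq_true, if_false, decide_eq_true_eq]
    split_ifs with h
    · have : 0 + (1 / ((p : ℕ) : ℝ) + 1 / ((p : ℕ) : ℝ) + 1 / ((p : ℕ) : ℝ)) =
        3 / ((p : ℕ) : ℝ) := by ring
      rw [this]
      nlinarith
    · refine le_of_eq ?_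
      ring
  have h4 : ∀ p : Pr z y, 0 ≤ ∑ o : Option (Fin 3), if o.isSome = true then 1 / ((p : ℕ) : ℝ)
        else if (p : ℕ) ∣ f then 0 else 1 := fun p => Finset.sum_nonneg fun o _ => by
    have := Pr_pos p
    split_ifs <;> positivity
  refine (Finset.prod_le_prod (fun p _ => h4 p) fun p _ => h2 p).trans ?_
  rw [Finset.prod_mul_distrib]
  have h7 : ∏ p : Pr z y, (1 + 3 / ((p : ℕ) : ℝ)) = SP z y := by
    unfold SP
    exact Finset.prod_coe_sort (PS z y) (fun p => 1 + 3 / (p : ℝ))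
  have h8 : ∏ p : Pr z y, (if decide ((p : ℕ) ∣ f) = true then 3 / ((p : ℕ) : ℝ) else 1) =
      (3 : ℝ) ^ f.primeFactors.card / f := by
    have h9 := prod_pf (fun p : Pr z y => decide ((p : ℕ) ∣ f)) (fun p => 3 / (p : ℝ))
    rw [nb_eq hf] at h9
    rw [← h9, Finset.prod_div_distrib, Finset.prod_const]
    congr 1
    have hsq : Squarefree f := Squarefree.squarefree_of_dvd hf (Pool.Agent.W108.RK.PP_squarefree z y)
    have h10 := Nat.prod_primeFactors_of_squarefree hsq
    conv_rhs => rw [← h10]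
    push_cast
    rfl
  rw [h7, h8]

end divisor

theorem MS1 : St_MS1 := by
  obtain ⟨CM, hCM, hmr⟩ := Pool.Agent.Helper923.HMertens.mertens_ratio
  obtain ⟨CL, hml⟩ := Pool.Agent.Helper923.HMertens.mertens_log
  have hCL : 0 ≤ CL := (abs_nonneg _).trans (hml 1 le_rfl)
  obtain ⟨z1, hz1⟩ := Pool.Agent.W215.FK.maf_of Pool.Agent.W864.FK.expf Pool.Agent.W756.FK.combf
  refine ⟨max z1 4, fun z hz => ?_⟩
  have hzz1 : z1 ≤ z := (le_max_left _ _).trans hz
  have hz4 : 4 ≤ z := (le_max_right _ _).trans hz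
  obtain ⟨CA, hCA⟩ := hz1 z hzz1
  have hlz : 0 < Real.log z := Real.log_pos (by exact_mod_cast (by omega : 1 < z))
  set K : ℝ := Real.exp (3 * (CM / Real.log z)) / Real.log z ^ 3 with hK
  have hK0 : 0 < K := by positivity
  refine ⟨Real.exp (-(3 * (CM / Real.log z)) - 9) / Real.log z ^ 3,
    |CA| + K + 3 * (Real.exp (2 + 2 * CL) * K), by positivity, max (z + 1) 3, fun y hy => ?_⟩
  have hzy : z + 1 ≤ y := (le_max_left _ _).trans hy
  have hy3 : 3 ≤ y := (le_max_right _ _).trans hy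
  have hly : 1 ≤ Real.log y := by
    rw [Real.le_log_iff_exp_le (by exact_mod_cast (by omega : 0 < y))]
    have h3 : (3 : ℝ) ≤ y := by exact_mod_cast hy3
    have := Real.exp_one_lt_d9
    linarith
  have hly3 : (0 : ℝ) ≤ Real.log y ^ 3 := by positivity
  have hmer := hmr z y (by omega) (by omega)
  have hup := SP_upper (by omega) (by omega) hmer
  have hlo := SP_lower (by omega) (by omega) hmer
  rw [← hK] at hup
  have hE : (0 : ℝ) < Real.exp (2 + 2 * CL) := Real.exp_pos _
  have hca := le_abs_self CA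
  have hca0 := abs_nonneg CA
  have hSP := SP_pos z y
  refine ⟨?_, ?_, ?_, ?_, ?_⟩
  · rw [SP_eq]
    exact hlo
  · rw [SP_eq]
    refine hup.trans (mul_le_mul_of_nonneg_right ?_ hly3)
    have : 0 ≤ 3 * (Real.exp (2 + 2 * CL) * K) := by positivity
    linarith
  · intro u hu
    have hsumlog : ∑ p ∈ PS z y, Real.log p / p ≤ Real.log y + CL := by
      have h1 := (abs_le.1 (hml y (by omega))).2
      have h2 : ∑ p ∈ PS z y, Real.log p / p ≤
          ∑ p ∈ (Finset.Icc 1 y).filter Nat.Prime, Real.log p / p := by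
        refine Finset.sum_le_sum_of_subset_of_nonneg ?_ ?_
        · unfold PS
          refine Finset.filter_subset_filter _ ?_
          intro p hp
          rw [Finset.mem_Ioc] at hp
          rw [Finset.mem_Icc]
          omega
        · intro p hp _
          have : (1 : ℝ) ≤ p := by
            exact_mod_cast (Finset.mem_filter.1 hp).2.one_le
          have := Real.log_nonneg this
          positivity
      linarith
    have h1 : ∑ s ∈ (Tup (Fin 3) z y).filter (fun s => ∃ j, (y : ℝ) ^ u < s j),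
        ∏ j, 1 / (s j : ℝ) ≤ ∑ s ∈ Tup (Fin 3) z y, Real.exp (-u) *
          ∑ j0, (s j0 : ℝ) ^ (1 / Real.log y) * ∏ j, 1 / (s j : ℝ) := by
      calc _ ≤ ∑ s ∈ (Tup (Fin 3) z y).filter (fun s => ∃ j, (y : ℝ) ^ u < s j),
            Real.exp (-u) * ∑ j0, (s j0 : ℝ) ^ (1 / Real.log y) * ∏ j, 1 / (s j : ℝ) := by
            refine Finset.sum_le_sum fun s hs => ?_
            rw [Finset.mem_filter] at hs
            exact rank_mem s (fun j => Tup_pos hs.1 j) hly (by omega) hs.2
        _ ≤ _ := Finset.sum_le_sum_of_subset_of_nonneg (Finset.filter_subset _ _)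
            (fun s _ _ => by positivity)
    refine h1.trans ?_
    rw [← Finset.mul_sum, Finset.sum_comm]
    have h2 : ∑ j0 : Fin 3, ∑ s ∈ Tup (Fin 3) z y,
        (s j0 : ℝ) ^ (1 / Real.log y) * ∏ j, 1 / (s j : ℝ) ≤
        ∑ _j0 : Fin 3, Real.exp (2 + 2 * CL) * SP z y :=
      Finset.sum_le_sum fun j0 _ => rank_sum j0 hly hsumlog hCL
    rw [Finset.sum_const, Finset.card_univ, Fintype.card_fin, nsmul_eq_mul] at h2
    have hu0 := Real.exp_pos (-u)
    calc Real.exp (-u) * _ ≤ Real.exp (-u) * (((3 : ℕ) : ℝ) * (Real.exp (2 + 2 * CL) * SP z y)) :=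
          mul_le_mul_of_nonneg_left h2 hu0.le
      _ ≤ Real.exp (-u) * (((3 : ℕ) : ℝ) * (Real.exp (2 + 2 * CL) * (K * Real.log y ^ 3))) := by
          gcongr
      _ = 3 * (Real.exp (2 + 2 * CL) * K) * Real.exp (-u) * Real.log y ^ 3 := by
          push_cast
          ring
      _ ≤ _ := by
          gcongr
          linarith
  · have h1 := hCA y (by omega)
    simp only [Fintype.card_fin] at h1
    have h2 : ∑ s ∈ Tup (Fin 3) z y, mu s * ∑ E ∈ (∏ j, s j).primeFactors.powerset,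
        (NL (∏ j, s j) (LF s E) : ℝ) ≤
        ∑ s ∈ Tup (Fin 3) z y, NF 2 s * ∏ j, gw 1 3 (s j) := by
      refine Finset.sum_le_sum fun s hs => ?_
      unfold mu NF
      have h3 : ∏ j, 1 / (s j : ℝ) ≤ ∏ j, gw 1 3 (s j) := by
        refine Finset.prod_le_prod (fun j _ => by positivity) fun j _ => ?_
        have hd := (mem_Tup'.1 hs).1 j
        have hsq : Squarefree (s j) :=
          Squarefree.squarefree_of_dvd hd (Pool.Agent.W108.RK.PP_squarefree z y)
        have h4 : (s j : ℝ) = ∏ p ∈ (s j).primeFactors, (p : ℝ) := by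
          conv_lhs => rw [← Nat.prod_primeFactors_of_squarefree hsq]
          push_cast
          rfl
        unfold gw
        rw [h4, one_div, ← Finset.prod_inv_distrib]
        refine Finset.prod_le_prod (fun p _ => by positivity) fun p hp => ?_
        have hp1 := Nat.prime_of_mem_primeFactors hp
        have hp2 := (Nat.dvd_of_mem_primeFactors hp).trans hd
        have hp3 : z < p := by
          unfold PP at hp2
          rw [Prime.dvd_finsetProd_iff hp1.prime] at hp2
          obtain ⟨q, hq, hpq⟩ := hp2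
          unfold PS at hq
          rw [Finset.mem_filter, Finset.mem_Ioc] at hq
          rw [(Nat.prime_dvd_prime_iff_eq hp1 hq.2).1 hpq]
          exact hq.1.1
        have hp4 : (4 : ℝ) < p := by exact_mod_cast (by omega : 4 < p)
        rw [← one_div]
        push_cast
        exact one_div_le_one_div_of_le (by linarith) (by linarith)
      have h5 : ∑ E ∈ (∏ j, s j).primeFactors.powerset, (NL (∏ j, s j) (LF s E) : ℝ) ≤
          ∑ E ∈ (∏ j, s j).primeFactors.powerset, (NL (∏ j, s j) (LF s E) : ℝ) ^ 2 := by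
        refine Finset.sum_le_sum fun E _ => ?_
        exact_mod_cast Nat.le_self_pow (by norm_num) _
      have h6 : 0 ≤ ∏ j, 1 / (s j : ℝ) := by positivity
      have h7 : (0 : ℝ) ≤ ∑ E ∈ (∏ j, s j).primeFactors.powerset,
        (NL (∏ j, s j) (LF s E) : ℝ) ^ 2 := by positivity
      have h8 : 0 ≤ ∏ j, gw 1 3 (s j) := h6.trans h3
      calc (1 / 2) ^ (∏ j, s j).primeFactors.card * (∏ j, 1 / (s j : ℝ)) *
          ∑ E ∈ (∏ j, s j).primeFactors.powerset, (NL (∏ j, s j) (LF s E) : ℝ) ≤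
          (1 / 2) ^ (∏ j, s j).primeFactors.card * (∏ j, gw 1 3 (s j)) *
          ∑ E ∈ (∏ j, s j).primeFactors.powerset, (NL (∏ j, s j) (LF s E) : ℝ) ^ 2 := by
            gcongr
        _ = _ := by ring
    refine (h2.trans h1).trans (mul_le_mul_of_nonneg_right ?_ hly3)
    have : 0 ≤ 3 * (Real.exp (2 + 2 * CL) * K) := by positivity
    linarith
  · intro f hf
    have hCC : K ≤ |CA| + K + 3 * (Real.exp (2 + 2 * CL) * K) := by
      have : 0 ≤ 3 * (Real.exp (2 + 2 * CL) * K) := by positivity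
      linarith
    have hf0 : (0 : ℝ) < f := by exact_mod_cast hf
    by_cases hfd : f ∣ PP z y
    · refine (div_sum hfd).trans ?_
      calc (3 : ℝ) ^ f.primeFactors.card / f * SP z y ≤
            (3 : ℝ) ^ f.primeFactors.card / f * (K * Real.log y ^ 3) := by gcongr
        _ = K * ((3 : ℝ) ^ f.primeFactors.card / f) * Real.log y ^ 3 := by ring
        _ ≤ _ := by gcongr
    · have h0 : (Tup (Fin 3) z y).filter (fun s => f ∣ ∏ j, s j) = ∅ := by
        rw [Finset.filter_eq_empty_iff]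
        intro s hs hfs
        exact hfd (hfs.trans (Tup_prod_dvd hs))
      rw [h0, Finset.sum_empty]
      positivity

end Pool.Agent.Y535.RP
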